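import Pool.Agent.helper93.TV.Spec2

/-! Row `tv:FK` (closure of families), from `TU`. -/

set_option autoImplicit false

namespace Pool.Agent.helper93.TV

open BigOperators Finset Matrix

variable {I V : Type} [Fintype I] [DecidableEq I] [Fintype V] [DecidableEq V]

theorem FK_split {n k : ℕ} {w : List V} (h : w ∈ lists V (n + k)) :
    ∃ p ∈ lists V n, ∃ r ∈ lists V k, w = p ++ r := by
  rw [mem_lists] at h
  refine ⟨w.take n, ?_, w.drop n, ?_, (List.take_append_drop n w).symm⟩
  · rw [mem_lists, List.length_take]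
    omega
  · rw [mem_lists, List.length_drop]
    omega

theorem FK_rt (D : FD I V) (X : Finset I) (n n' k : ℕ) (ψ : I → List V → List V → ℂ) (a : I)
    {p q r r' : List V} (hp : p ∈ lists V n) (hq : q ∈ lists V n') [Decidable (r = r' ∧
      r ∈ lists V k ∧ D.ok X (D.en a p) r)] :
    D.rtens X n n' k ψ a (p ++ r) (q ++ r') =
      if r = r' ∧ r ∈ lists V k ∧ D.ok X (D.en a p) r then ψ a p q else 0 := by
  have hp' : p.length = n := mem_lists.1 hp
  have hq' : q.length = n' := mem_lists.1 hq
  unfold FD.rtens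
  rw [List.take_left' hp', List.take_left' hq', List.drop_left' hp', List.drop_left' hq']
  by_cases h : r = r' ∧ r ∈ lists V k ∧ D.ok X (D.en a p) r
  · rw [if_pos h, if_pos h]
  · rw [if_neg h, if_neg h]

theorem FK_lt (D : FD I V) (X : Finset I) (k : ℕ) (ψ : I → List V → List V → ℂ) (a : I)
    {p q r r' : List V} (hr : r ∈ lists V k) (hr' : r' ∈ lists V k) [Decidable (r = r' ∧
      D.ok X a r)] :
    D.ltens X k ψ a (r ++ p) (r' ++ q) =
      if r = r' ∧ D.ok X a r then ψ (D.en a r) p q else 0 := by
  have hp' : r.length = k := mem_lists.1 hr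
  have hq' : r'.length = k := mem_lists.1 hr'
  unfold FD.ltens
  rw [List.take_left' hp', List.take_left' hq', List.drop_left' hp', List.drop_left' hq']
  by_cases h : r = r' ∧ D.ok X a r
  · rw [if_pos h, if_pos ⟨h.1, hr, h.2⟩]
  · rw [if_neg h, if_neg fun h' => h ⟨h'.1, h'.2.2⟩]

theorem FK_mul (D : FD I V) (X : Finset I) (c : V → V → V → V → ℂ) (n n' n'' : ℕ)
    (ψ χ : I → List V → List V → ℂ) (h1 : D.Fam X c n n' ψ) (h2 : D.Fam X c n' n'' χ) :
    D.Fam X c n n'' (fun a p q => ∑ w ∈ lists V n', ψ a p w * χ a w q) := by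
  constructor
  · intro a p q h
    obtain ⟨w, _, hw⟩ := Finset.exists_ne_zero_of_sum_ne_zero h
    obtain ⟨a1, a2, a3, a4, a5⟩ := h1.supp a p w (left_ne_zero_of_mul hw)
    obtain ⟨b1, b2, b3, b4, b5⟩ := h2.supp a w q (right_ne_zero_of_mul hw)
    exact ⟨a1, b2, a3, b4, a5.trans b5⟩
  · intro l p q' l' hl hp hq'
    calc ∑ q ∈ lists V n'', (∑ w ∈ lists V n', ψ (D.t l) p w * χ (D.t l) w q) * tp c l q q' l'
        = ∑ w ∈ lists V n', ψ (D.t l) p w * ∑ q ∈ lists V n'', χ (D.t l) w q * tp c l q q' l' := by
          simp only [Finset.sum_mul, Finset.mul_sum, mul_assoc]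
          rw [Finset.sum_comm]
      _ = ∑ w ∈ lists V n', ψ (D.t l) p w * ∑ w' ∈ lists V n', tp c l w w' l' *
            χ (D.s2 l) w' q' := by
          refine Finset.sum_congr rfl fun w hw => ?_
          rw [h2.fl l w q' l' hl hw hq']
      _ = ∑ w' ∈ lists V n', (∑ w ∈ lists V n', ψ (D.t l) p w * tp c l w w' l') *
            χ (D.s2 l) w' q' := by
          simp only [Finset.sum_mul, Finset.mul_sum, mul_assoc]
          rw [Finset.sum_comm]
      _ = ∑ w' ∈ lists V n', (∑ p' ∈ lists V n, tp c l p p' l' * ψ (D.s2 l) p' w') *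
            χ (D.s2 l) w' q' := by
          refine Finset.sum_congr rfl fun w' hw' => ?_
          rw [h1.fl l p w' l' hl hp hw']
      _ = ∑ p' ∈ lists V n, tp c l p p' l' * ∑ w ∈ lists V n', ψ (D.s2 l) p' w *
            χ (D.s2 l) w q' := by
          simp only [Finset.sum_mul, Finset.mul_sum, mul_assoc]
          rw [Finset.sum_comm]

theorem FK_adj (hTU : TU_out) (D : FD I V) (X : Finset I) (c : V → V → V → V → ℂ)
    (hc : D.Conn X c) (n n' : ℕ) (ψ : I → List V → List V → ℂ) (h : D.Fam X c n n' ψ) :
    D.Fam X c n' n (fun a p q => star (ψ a q p)) := by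
  constructor
  · intro a p q hne
    have hne' : ψ a q p ≠ 0 := fun h0 => hne (by simp [h0])
    obtain ⟨a1, a2, a3, a4, a5⟩ := h.supp a q p hne'
    exact ⟨a2, a1, a4, a3, a5.symm⟩
  · intro l p q' l' hl hp hq'
    obtain ⟨hrow, -⟩ := hTU I V D X c hc n'
    obtain ⟨-, hcol⟩ := hTU I V D X c hc n
    by_cases hcase : D.ok X (D.s2 l) q' ∧ D.en (D.s2 l) q' = D.s2 l' ∧ D.s1 l' ∈ X
    · obtain ⟨c1, c2, c3⟩ := hcase
      by_cases hok : D.ok X (D.t l) p
      · -- the main case
        -- the start point is determined on the support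
        have hstart : ∀ l₁ q₁, tp c l₁ q₁ q' l' ≠ 0 → D.s2 l₁ = D.s2 l := by
          intro l₁ q₁ hne
          obtain ⟨_, d2, _, d4, _, _⟩ := tp_supp D X c hc l₁ l' q₁ q' hne
          cases q' with
          | nil =>
            have e1 : D.s2 l' = D.s2 l₁ := d4
            have e2 : D.s2 l = D.s2 l' := c2
            rw [← e1, e2]
          | cons e r =>
            have e1 : D.s1 e = D.s2 l₁ := d2.1
            have e2 : D.s1 e = D.s2 l := c1.1
            rw [← e1, e2]
        have hC : ∀ p₁' ∈ lists V n', ∀ l₁', (if l' = l₁' then ψ (D.s2 l) q' p₁' else 0) =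
            ∑ l₁, ∑ q₁ ∈ lists V n, star (tp c l₁ q₁ q' l') *
              ∑ p₁ ∈ lists V n', ψ (D.t l₁) q₁ p₁ * tp c l₁ p₁ p₁' l₁' := by
          intro p₁' hp₁' l₁'
          have e1 : ∀ l₁, ∀ q₁ ∈ lists V n, star (tp c l₁ q₁ q' l') *
              ∑ p₁ ∈ lists V n', ψ (D.t l₁) q₁ p₁ * tp c l₁ p₁ p₁' l₁' =
              ∑ q₁' ∈ lists V n, (star (tp c l₁ q₁ q' l') * tp c l₁ q₁ q₁' l₁') *
                ψ (D.s2 l) q₁' p₁' := by
            intro l₁ q₁ hq₁
            by_cases hz : tp c l₁ q₁ q' l' = 0
            · simp [hz]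
            · have hs1 : D.s1 l₁ ∈ X := by
                obtain ⟨_, _, d3, _, _, _⟩ := tp_supp D X c hc l₁ l' q₁ q' hz
                rw [d3]
                exact c3
              rw [h.fl l₁ q₁ p₁' l₁' hs1 hq₁ hp₁', hstart l₁ q₁ hz, Finset.mul_sum]
              refine Finset.sum_congr rfl fun q₁' _ => ?_
              ring
          rw [Finset.sum_congr rfl fun l₁ _ => Finset.sum_congr rfl fun q₁ hq₁ => e1 l₁ q₁ hq₁]
          have e2 : ∑ l₁, ∑ q₁ ∈ lists V n, ∑ q₁' ∈ lists V n,
              (star (tp c l₁ q₁ q' l') * tp c l₁ q₁ q₁' l₁') * ψ (D.s2 l) q₁' p₁' =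
              ∑ q₁' ∈ lists V n, (∑ l₁, ∑ q₁ ∈ lists V n,
                star (tp c l₁ q₁ q' l') * tp c l₁ q₁ q₁' l₁') * ψ (D.s2 l) q₁' p₁' := by
            simp only [Finset.sum_mul]
            rw [Finset.sum_congr rfl fun l₁ _ => Finset.sum_comm]
            exact Finset.sum_comm
          rw [e2]
          have e3 : ∀ q₁' ∈ lists V n, (∑ l₁, ∑ q₁ ∈ lists V n,
                star (tp c l₁ q₁ q' l') * tp c l₁ q₁ q₁' l₁') * ψ (D.s2 l) q₁' p₁' =
              if q' = q₁' then (if l' = l₁' then ψ (D.s2 l) q' p₁' else 0) else 0 := by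
            intro q₁' hq₁'
            rw [hcol q' l' q₁' l₁' c3 hq' hq₁' ⟨D.s2 l, c1, c2⟩]
            by_cases g1 : q' = q₁'
            · subst g1
              by_cases g2 : l' = l₁'
              · simp [g2]
              · simp [g2]
            · simp [g1]
          rw [Finset.sum_congr rfl e3, Finset.sum_ite_eq, if_pos hq']
        have hCs : ∀ p₁' ∈ lists V n', ∀ l₁', (if l' = l₁' then star (ψ (D.s2 l) q' p₁') else 0) =
            ∑ l₁, ∑ q₁ ∈ lists V n, tp c l₁ q₁ q' l' *
              ∑ p₁ ∈ lists V n', star (ψ (D.t l₁) q₁ p₁) * star (tp c l₁ p₁ p₁' l₁') := by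
          intro p₁' hp₁' l₁'
          have := congrArg star (hC p₁' hp₁' l₁')
          rw [apply_ite star, star_zero] at this
          rw [this]
          simp only [star_sum, star_mul', star_star]
        symm
        calc ∑ p' ∈ lists V n', tp c l p p' l' * star (ψ (D.s2 l) q' p')
            = ∑ p' ∈ lists V n', ∑ l₁', tp c l p p' l₁' *
                (if l' = l₁' then star (ψ (D.s2 l) q' p') else 0) := by
              refine Finset.sum_congr rfl fun p' _ => ?_
              simp
          _ = ∑ p' ∈ lists V n', ∑ l₁', tp c l p p' l₁' *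
                ∑ l₁, ∑ q₁ ∈ lists V n, tp c l₁ q₁ q' l' *
                  ∑ p₁ ∈ lists V n', star (ψ (D.t l₁) q₁ p₁) * star (tp c l₁ p₁ p' l₁') := by
              refine Finset.sum_congr rfl fun p' hp' => Finset.sum_congr rfl fun l₁' _ => ?_
              rw [hCs p' hp' l₁']
          _ = ∑ l₁, ∑ q₁ ∈ lists V n, tp c l₁ q₁ q' l' * ∑ p₁ ∈ lists V n',
                star (ψ (D.t l₁) q₁ p₁) * ∑ p' ∈ lists V n', ∑ l₁',
                  tp c l p p' l₁' * star (tp c l₁ p₁ p' l₁') := by
              simp only [Finset.mul_sum]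
              -- order: p', l₁', l₁, q₁, p₁  ->  l₁, q₁, p₁, p', l₁'
              rw [Finset.sum_congr rfl fun p' _ => Finset.sum_comm]
              rw [Finset.sum_comm]
              refine Finset.sum_congr rfl fun l₁ _ => ?_
              rw [Finset.sum_congr rfl fun p' _ => Finset.sum_comm]
              rw [Finset.sum_comm]
              refine Finset.sum_congr rfl fun q₁ _ => ?_
              rw [Finset.sum_congr rfl fun p' _ => Finset.sum_comm]
              rw [Finset.sum_comm]
              refine Finset.sum_congr rfl fun p₁ _ => Finset.sum_congr rfl fun p' _ =>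
                Finset.sum_congr rfl fun l₁' _ => ?_
              ring
          _ = ∑ l₁, ∑ q₁ ∈ lists V n, tp c l₁ q₁ q' l' * ∑ p₁ ∈ lists V n',
                star (ψ (D.t l₁) q₁ p₁) * (if l = l₁ ∧ p = p₁ then 1 else 0) := by
              refine Finset.sum_congr rfl fun l₁ _ => Finset.sum_congr rfl fun q₁ _ => ?_
              congr 1
              refine Finset.sum_congr rfl fun p₁ hp₁ => ?_
              rw [hrow l p l₁ p₁ hl hp hp₁ hok]
          _ = ∑ l₁, ∑ q₁ ∈ lists V n, tp c l₁ q₁ q' l' *
                (if l = l₁ then star (ψ (D.t l₁) q₁ p) else 0) := by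
              refine Finset.sum_congr rfl fun l₁ _ => Finset.sum_congr rfl fun q₁ _ => ?_
              congr 1
              by_cases g : l = l₁
              · simp [g, hp]
              · simp [g]
          _ = ∑ q₁ ∈ lists V n, tp c l q₁ q' l' * star (ψ (D.t l) q₁ p) := by
              rw [Finset.sum_eq_single l]
              · simp
              · intro b _ hb
                simp [hb.symm]
              · intro hb
                exact absurd (Finset.mem_univ l) hb
          _ = ∑ q ∈ lists V n, star (ψ (D.t l) q p) * tp c l q q' l' := by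
              refine Finset.sum_congr rfl fun q _ => ?_
              ring
      · -- p is not a path from t l: both sides vanish
        rw [Finset.sum_eq_zero, Finset.sum_eq_zero]
        · intro p' _
          by_cases hz : tp c l p p' l' = 0
          · rw [hz, zero_mul]
          · exact absurd (tp_supp D X c hc l l' p p' hz).1 hok
        · intro q _
          by_cases hz : ψ (D.t l) q p = 0
          · rw [hz, star_zero, zero_mul]
          · exact absurd (h.supp _ _ _ hz).2.2.2.1 hok
    · rw [Finset.sum_eq_zero, Finset.sum_eq_zero]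
      · intro p' _
        by_cases hz : tp c l p p' l' = 0
        · rw [hz, zero_mul]
        · by_cases hz2 : ψ (D.s2 l) q' p' = 0
          · rw [hz2, star_zero, mul_zero]
          · exfalso
            obtain ⟨_, _, d3, d4, _, _⟩ := tp_supp D X c hc l l' p p' hz
            obtain ⟨_, _, s3, _, s5⟩ := h.supp _ _ _ hz2
            exact hcase ⟨s3, by rw [s5, d4], by rw [← d3]; exact hl⟩
      · intro q _
        by_cases hz : tp c l q q' l' = 0
        · rw [hz, mul_zero]
        · exfalso
          obtain ⟨_, d2, d3, d4, _, _⟩ := tp_supp D X c hc l l' q q' hz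
          exact hcase ⟨d2, d4.symm, by rw [← d3]; exact hl⟩

theorem FK_rtens (D : FD I V) (X : Finset I) (c : V → V → V → V → ℂ)
    (hc : D.Conn X c) (n n' k : ℕ) (ψ : I → List V → List V → ℂ) (h : D.Fam X c n n' ψ) :
    D.Fam X c (n + k) (n' + k) (D.rtens X n n' k ψ) := by
  classical
  constructor
  · intro a w w' hne
    unfold FD.rtens at hne
    by_cases hcond : w.drop n = w'.drop n' ∧ w.drop n ∈ lists V k ∧
        D.ok X (D.en a (w.take n)) (w.drop n)
    · rw [if_pos hcond] at hne
      obtain ⟨g1, g2, g3⟩ := hcond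
      obtain ⟨a1, a2, a3, a4, a5⟩ := h.supp _ _ _ hne
      have l1 := mem_lists.1 a1
      have l2 := mem_lists.1 a2
      have l3 := mem_lists.1 g2
      have e1 : w = w.take n ++ w.drop n := (List.take_append_drop n w).symm
      have e2 : w' = w'.take n' ++ w'.drop n' := (List.take_append_drop n' w').symm
      refine ⟨?_, ?_, ?_, ?_, ?_⟩
      · rw [mem_lists, e1, List.length_append, l1, l3]
      · rw [mem_lists, e2, List.length_append, l2, ← g1, l3]
      · rw [e1, ok_append]
        exact ⟨a3, g3⟩
      · rw [e2, ok_append]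
        refine ⟨a4, ?_⟩
        rw [← a5, ← g1]
        exact g3
      · rw [e1, e2, en_append, en_append, a5, g1]
    · rw [if_neg hcond] at hne
      exact absurd rfl hne
  · intro l w v' l' hl hw hv'
    obtain ⟨p, hp, r, hr, rfl⟩ := FK_split hw
    obtain ⟨q', hq', r', hr', rfl⟩ := FK_split hv'
    rw [sum_lists_add, sum_lists_add]
    have hL : ∑ q ∈ lists V n', ∑ s ∈ lists V k, D.rtens X n n' k ψ (D.t l) (p ++ r) (q ++ s) *
        tp c l (q ++ s) (q' ++ r') l' = ∑ l'', (∑ q ∈ lists V n', ψ (D.t l) p q *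
          tp c l q q' l'') * (if D.ok X (D.en (D.t l) p) r then tp c l'' r r' l' else 0) := by
      have e : ∀ q ∈ lists V n', ∑ s ∈ lists V k, D.rtens X n n' k ψ (D.t l) (p ++ r) (q ++ s) *
          tp c l (q ++ s) (q' ++ r') l' = ∑ l'', (ψ (D.t l) p q * tp c l q q' l'') *
            (if D.ok X (D.en (D.t l) p) r then tp c l'' r r' l' else 0) := by
        intro q hq
        rw [Finset.sum_eq_single r]
        · rw [FK_rt D X n n' k ψ (D.t l) hp hq, tp_append c l l' q q' r r'
            ((mem_lists.1 hq).trans (mem_lists.1 hq').symm)]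
          by_cases g : D.ok X (D.en (D.t l) p) r
          · rw [if_pos ⟨rfl, hr, g⟩, Finset.mul_sum]
            refine Finset.sum_congr rfl fun l'' _ => ?_
            rw [if_pos g]
            ring
          · rw [if_neg fun h' => g h'.2.2, zero_mul]
            symm
            refine Finset.sum_eq_zero fun l'' _ => ?_
            rw [if_neg g, mul_zero]
        · intro s _ hs
          rw [FK_rt D X n n' k ψ (D.t l) hp hq, if_neg fun h' => hs h'.1.symm, zero_mul]
        · intro h'
          exact absurd hr h'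
      rw [Finset.sum_congr rfl e, Finset.sum_comm]
      refine Finset.sum_congr rfl fun l'' _ => ?_
      rw [Finset.sum_mul]
    have hR : ∑ p' ∈ lists V n, ∑ s ∈ lists V k, tp c l (p ++ r) (p' ++ s) l' *
        D.rtens X n n' k ψ (D.s2 l) (p' ++ s) (q' ++ r') = ∑ l'', ∑ p' ∈ lists V n,
          (tp c l p p' l'' * ψ (D.s2 l) p' q') *
            (if D.ok X (D.en (D.s2 l) p') r' then tp c l'' r r' l' else 0) := by
      have e : ∀ p' ∈ lists V n, ∑ s ∈ lists V k, tp c l (p ++ r) (p' ++ s) l' *
          D.rtens X n n' k ψ (D.s2 l) (p' ++ s) (q' ++ r') = ∑ l'',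
          (tp c l p p' l'' * ψ (D.s2 l) p' q') *
            (if D.ok X (D.en (D.s2 l) p') r' then tp c l'' r r' l' else 0) := by
        intro p' hp'
        rw [Finset.sum_eq_single r']
        · rw [FK_rt D X n n' k ψ (D.s2 l) hp' hq', tp_append c l l' p p' r r'
            ((mem_lists.1 hp).trans (mem_lists.1 hp').symm)]
          by_cases g : D.ok X (D.en (D.s2 l) p') r'
          · rw [if_pos ⟨rfl, hr', g⟩, Finset.sum_mul]
            refine Finset.sum_congr rfl fun l'' _ => ?_
            rw [if_pos g]
            ring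
          · rw [if_neg fun h' => g h'.2.2, mul_zero]
            symm
            refine Finset.sum_eq_zero fun l'' _ => ?_
            rw [if_neg g, mul_zero]
        · intro s _ hs
          rw [FK_rt D X n n' k ψ (D.s2 l) hp' hq', if_neg fun h' => hs h'.1, mul_zero]
        · intro h'
          exact absurd hr' h'
      rw [Finset.sum_congr rfl e, Finset.sum_comm]
    rw [hL, hR]
    refine Finset.sum_congr rfl fun l'' _ => ?_
    rw [h.fl l p q' l'' hl hp hq', Finset.sum_mul]
    refine Finset.sum_congr rfl fun p' _ => ?_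
    by_cases hz : tp c l p p' l'' = 0
    · rw [hz]
      ring
    · by_cases hz2 : tp c l'' r r' l' = 0
      · rw [hz2]
        simp
      · obtain ⟨_, _, _, d4, d5, _⟩ := tp_supp D X c hc l l'' p p' hz
        obtain ⟨f1, f2, _, _, _, _⟩ := tp_supp D X c hc l'' l' r r' hz2
        rw [d5] at f1
        rw [d4] at f2
        rw [if_pos f1, if_pos f2]

theorem FK_ltens (D : FD I V) (X : Finset I) (c : V → V → V → V → ℂ)
    (hc : D.Conn X c) (n n' k : ℕ) (ψ : I → List V → List V → ℂ) (h : D.Fam X c n n' ψ) :
    D.Fam X c (k + n) (k + n') (D.ltens X k ψ) := by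
  classical
  constructor
  · intro a w w' hne
    unfold FD.ltens at hne
    by_cases hcond : w.take k = w'.take k ∧ w.take k ∈ lists V k ∧ D.ok X a (w.take k)
    · rw [if_pos hcond] at hne
      obtain ⟨g1, g2, g3⟩ := hcond
      obtain ⟨a1, a2, a3, a4, a5⟩ := h.supp _ _ _ hne
      have l1 := mem_lists.1 a1
      have l2 := mem_lists.1 a2
      have l3 := mem_lists.1 g2
      have e1 : w = w.take k ++ w.drop k := (List.take_append_drop k w).symm
      have e2 : w' = w'.take k ++ w'.drop k := (List.take_append_drop k w').symm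
      refine ⟨?_, ?_, ?_, ?_, ?_⟩
      · rw [mem_lists, e1, List.length_append, l1, l3]
      · rw [mem_lists, e2, List.length_append, l2, ← g1, l3]
      · rw [e1, ok_append]
        exact ⟨g3, a3⟩
      · rw [e2, ok_append, ← g1]
        exact ⟨g3, a4⟩
      · rw [e1, e2, en_append, en_append, ← g1, a5]
    · rw [if_neg hcond] at hne
      exact absurd rfl hne
  · intro l w v' l' hl hw hv'
    obtain ⟨r, hr, p, hp, rfl⟩ := FK_split hw
    obtain ⟨r', hr', q', hq', rfl⟩ := FK_split hv'
    rw [sum_lists_add, sum_lists_add]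
    have hL : ∑ s ∈ lists V k, ∑ q ∈ lists V n', D.ltens X k ψ (D.t l) (r ++ p) (s ++ q) *
        tp c l (s ++ q) (r' ++ q') l' = ∑ l'', (if D.ok X (D.t l) r then tp c l r r' l'' else 0) *
          ∑ q ∈ lists V n', ψ (D.en (D.t l) r) p q * tp c l'' q q' l' := by
      rw [Finset.sum_eq_single r]
      · have e : ∀ q ∈ lists V n', D.ltens X k ψ (D.t l) (r ++ p) (r ++ q) *
            tp c l (r ++ q) (r' ++ q') l' = ∑ l'', (if D.ok X (D.t l) r then tp c l r r' l''
              else 0) * (ψ (D.en (D.t l) r) p q * tp c l'' q q' l') := by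
          intro q hq
          rw [FK_lt D X k ψ (D.t l) hr hr, tp_append c l l' r r' q q'
            ((mem_lists.1 hr).trans (mem_lists.1 hr').symm)]
          by_cases g : D.ok X (D.t l) r
          · rw [if_pos ⟨rfl, g⟩, Finset.mul_sum]
            refine Finset.sum_congr rfl fun l'' _ => ?_
            rw [if_pos g]
            ring
          · rw [if_neg fun h' => g h'.2, zero_mul]
            symm
            refine Finset.sum_eq_zero fun l'' _ => ?_
            rw [if_neg g, zero_mul]
        rw [Finset.sum_congr rfl e, Finset.sum_comm]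
        refine Finset.sum_congr rfl fun l'' _ => ?_
        rw [Finset.mul_sum]
      · intro s hs hne
        refine Finset.sum_eq_zero fun q _ => ?_
        rw [FK_lt D X k ψ (D.t l) hr hs, if_neg fun h' => hne h'.1.symm, zero_mul]
      · intro h'
        exact absurd hr h'
    have hR : ∑ s ∈ lists V k, ∑ p' ∈ lists V n, tp c l (r ++ p) (s ++ p') l' *
        D.ltens X k ψ (D.s2 l) (s ++ p') (r' ++ q') = ∑ l'',
          (if D.ok X (D.s2 l) r' then tp c l r r' l'' else 0) *
          ∑ p' ∈ lists V n, tp c l'' p p' l' * ψ (D.en (D.s2 l) r') p' q' := by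
      rw [Finset.sum_eq_single r']
      · have e : ∀ p' ∈ lists V n, tp c l (r ++ p) (r' ++ p') l' *
            D.ltens X k ψ (D.s2 l) (r' ++ p') (r' ++ q') = ∑ l'',
            (if D.ok X (D.s2 l) r' then tp c l r r' l'' else 0) *
              (tp c l'' p p' l' * ψ (D.en (D.s2 l) r') p' q') := by
          intro p' hp'
          rw [FK_lt D X k ψ (D.s2 l) hr' hr', tp_append c l l' r r' p p'
            ((mem_lists.1 hr).trans (mem_lists.1 hr').symm)]
          by_cases g : D.ok X (D.s2 l) r'
          · rw [if_pos ⟨rfl, g⟩, Finset.sum_mul]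
            refine Finset.sum_congr rfl fun l'' _ => ?_
            rw [if_pos g]
            ring
          · rw [if_neg fun h' => g h'.2, mul_zero]
            symm
            refine Finset.sum_eq_zero fun l'' _ => ?_
            rw [if_neg g, zero_mul]
        rw [Finset.sum_congr rfl e, Finset.sum_comm]
        refine Finset.sum_congr rfl fun l'' _ => ?_
        rw [Finset.mul_sum]
      · intro s hs hne
        refine Finset.sum_eq_zero fun p' _ => ?_
        rw [FK_lt D X k ψ (D.s2 l) hs hr', if_neg fun h' => hne h'.1, mul_zero]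
      · intro h'
        exact absurd hr' h'
    rw [hL, hR]
    refine Finset.sum_congr rfl fun l'' _ => ?_
    by_cases hz : tp c l r r' l'' = 0
    · rw [hz]
      simp
    · obtain ⟨d1, d2, d3, d4, d5, _⟩ := tp_supp D X c hc l l'' r r' hz
      rw [if_pos d1, if_pos d2, ← d4, ← d5]
      rw [h.fl l'' p q' l' (by rw [← d3]; exact hl) hp hq']

theorem FK : FK_stmt := by
  intro hTU I V _ _ _ _ D X c hc
  exact ⟨fun n n' n'' ψ χ h1 h2 => FK_mul D X c n n' n'' ψ χ h1 h2,
    fun n n' ψ h => FK_adj hTU D X c hc n n' ψ h,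
    fun n n' k ψ h => FK_rtens D X c hc n n' k ψ h,
    fun n n' k ψ h => FK_ltens D X c hc n n' k ψ h⟩

end Pool.Agent.helper93.TV
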